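import Pool.Agent.Run7.h520.BU.I

/-!
# Project BU, piece DIST : the point `a` knows `c`
-/

set_option autoImplicit false

namespace Run7.h68.BU
open FirstOrder FirstOrder.Language Run7.h520.BU

/-- The symbol `E l`. -/
def rE (l : ℕ) : LB.Relations 2 := Rel.E l

/-- The symbol `Q`. -/
def rQ : LB.Relations 1 := Rel.Q

/-- The formulas `β_j (l, y)`. -/
def bt : ℕ → ℕ → LB.Formula (Fin 1)
  | 0, _ => Relations.boundedFormula₁ rQ (Term.var (Sum.inl 0))
  | j + 1, l => BoundedFormula.ex ((Relations.boundedFormula₂ (rE l)
      (Term.var (Sum.inl 0)) (Term.var (Sum.inr 0))) ⊓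
      (BoundedFormula.relabel (k := 0) (fun _ => (Sum.inr 0 : Fin 1 ⊕ Fin 1)) (bt j (l + 1)) :
        LB.BoundedFormula (Fin 1) (1 + 0)).not)

/-- Their meaning. -/
def BT {N : Type} (X : Fr N) : ℕ → ℕ → N → Prop
  | 0, _, y => X.Q y
  | j + 1, l, y => ∃ z, X.E l y z ∧ ¬ BT X j (l + 1) z

theorem bt_real {N : Type} (X : Fr N) (j : ℕ) : ∀ (l : ℕ) (v : Fin 1 → N),
    @Formula.Realize LB N X.str (Fin 1) (bt j l) v ↔ BT X j l (v 0) := by
  let _ := X.str
  induction j with
  | zero =>
    intro l v
    unfold bt BT
    unfold Formula.Realize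
    rw [BoundedFormula.realize_rel₁]
    rfl
  | succ j ih =>
    intro l v
    unfold bt BT
    unfold Formula.Realize
    rw [BoundedFormula.realize_ex]
    refine exists_congr fun z => ?_
    rw [BoundedFormula.realize_inf, BoundedFormula.realize_not, BoundedFormula.realize_rel₂,
      BoundedFormula.realize_relabel]
    refine and_congr ?_ (not_congr ?_)
    · exact Iff.rfl
    · have h := ih (l + 1) (fun _ => z)
      rw [← h]
      unfold Formula.Realize
      rw [Unique.eq_default (Fin.snoc (α := fun _ => N) default z ∘ Fin.natAdd 1 : Fin 0 → N)]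
      have : (Sum.elim v (Fin.snoc (α := fun _ => N) default z ∘ Fin.castAdd 0) ∘
          fun _ : Fin 1 => (Sum.inr 0 : Fin 1 ⊕ Fin 1)) = fun _ => z := by
        funext i
        simp [Fin.snoc]
      rw [this]

/-- The formulas `χ_m`. -/
def ch (m : ℕ) : LB.Formula (Fin 1) :=
  BoundedFormula.ex ((Relations.boundedFormula₂ (rE m)
    (Term.var (Sum.inl 0)) (Term.var (Sum.inr 0))) ⊓
    ((Relations.boundedFormula₂ (rE (m + 1))
      (Term.var (Sum.inl 0)) (Term.var (Sum.inr 0))).not ⊓
      (BoundedFormula.relabel (k := 0) (fun _ => (Sum.inr 0 : Fin 1 ⊕ Fin 1)) (bt m (m + 1)) :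
        LB.BoundedFormula (Fin 1) (1 + 0))))

theorem ch_real {N : Type} (X : Fr N) (m : ℕ) (v : Fin 1 → N) :
    @Formula.Realize LB N X.str (Fin 1) (ch m) v ↔
      ∃ y, X.E m (v 0) y ∧ ¬ X.E (m + 1) (v 0) y ∧ BT X m (m + 1) y := by
  let _ := X.str
  unfold ch
  unfold Formula.Realize
  rw [BoundedFormula.realize_ex]
  refine exists_congr fun z => ?_
  rw [BoundedFormula.realize_inf, BoundedFormula.realize_inf, BoundedFormula.realize_not,
    BoundedFormula.realize_rel₂, BoundedFormula.realize_rel₂, BoundedFormula.realize_relabel]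
  refine and_congr Iff.rfl (and_congr Iff.rfl ?_)
  rw [← bt_real X m (m + 1) (fun _ => z)]
  unfold Formula.Realize
  rw [Unique.eq_default (Fin.snoc (α := fun _ => N) default z ∘ Fin.natAdd 1 : Fin 0 → N)]
  have : (Sum.elim v (Fin.snoc (α := fun _ => N) default z ∘ Fin.castAdd 0) ∘
      fun _ : Fin 1 => (Sum.inr 0 : Fin 1 ⊕ Fin 1)) = fun _ => z := by
    funext i
    simp [Fin.snoc]
  rw [this]

theorem lab_append (s : List (Bool × ℕ)) : ∀ (b : Bool) (t : List (Bool × ℕ)),
    lab b (s ++ t) = lab (lab b s) t := by
  induction s with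
  | nil => intro b t; rfl
  | cons p s ih => intro b t; exact ih p.1 t

theorem good_append (s : List (Bool × ℕ)) : ∀ (b : Bool) (t : List (Bool × ℕ)),
    Good b (s ++ t) ↔ Good b s ∧ Good (lab b s) t := by
  induction s with
  | nil => intro b t; simp [Good, lab]
  | cons p s ih =>
    intro b t
    show (_ ∧ Good p.1 (s ++ t)) ↔ (_ ∧ Good p.1 s) ∧ Good (lab p.1 s) t
    rw [ih, and_assoc]

theorem good_rep (n : ℕ) : ∀ b : Bool, Good b (List.replicate n (true, 0)) := by
  induction n with
  | zero => intro b; trivial
  | succ n ih => intro b; exact ⟨fun _ => rfl, ih true⟩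

/-- Two points of the same tree. -/
theorem er_iff {m k : ℕ} {s : List (Bool × ℕ)} (t : ℕ) (w : Raw) :
    ER (m + 1 + t) (Sum.inr (some (m, k, s))) w ↔
      ∃ s', w = Sum.inr (some (m, k, s')) ∧ ∀ u < t, s[u]? = s'[u]? := by
  constructor
  · intro h
    rcases w with d | z
    · exact h.elim
    · change ∀ l < m + 1 + t, cd (some (m, k, s)) l = cd z l at h
      rcases z with _ | ⟨i, k', s'⟩
      · have := h m (by omega)
        simp [cd] at this
      · have hi : i = m := by
          rcases lt_trichotomy i m with h1 | h1 | h1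
          · have := h i (by omega)
            simp [cd, h1] at this
          · exact h1
          · have := h m (by omega)
            simp [cd, h1] at this
        subst hi
        have hk := h i (by omega)
        simp [cd] at hk
        subst hk
        refine ⟨s', rfl, fun u hu => ?_⟩
        have := h (i + 1 + u) (by omega)
        simp only [cd] at this
        rw [if_neg (by omega), if_neg (by omega), if_neg (by omega), if_neg (by omega)] at this
        have h2 : i + 1 + u - i - 1 = u := by omega
        rw [h2] at this
        simpa using this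
  · rintro ⟨s', rfl, h⟩
    change ∀ l < m + 1 + t, cd (some (m, k, s)) l = cd (some (m, k, s')) l
    intro l hl
    simp only [cd]
    by_cases h1 : l < m
    · rw [if_pos h1, if_pos h1]
    · by_cases h2 : l = m
      · rw [if_neg h1, if_neg h1, if_pos h2, if_pos h2]
      · rw [if_neg h1, if_neg h1, if_neg h2, if_neg h2, h (l - m - 1) (by omega)]

theorem take_eq {s s' : List (Bool × ℕ)} {t : ℕ} (h : ∀ u < t, s[u]? = s'[u]?) :
    s.take t = s'.take t := by
  apply List.ext_getElem?
  intro i
  rw [List.getElem?_take, List.getElem?_take]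
  split_ifs with h1
  · exact h i h1
  · rfl

/-- The meaning of `β_j` for the points of a tree of height `m`. -/
theorem bt_iff (c : ℕ → Bool) (m : ℕ) (j : ℕ) : j ≤ m → ∀ (k : ℕ) (s : List (Bool × ℕ))
    (hs : Val c (Sum.inr (some (m, k, s)))),
    BT (XN c) j (m + 1 + (m - j)) ⟨Sum.inr (some (m, k, s)), hs⟩ ↔
      lab (c m) (s.take (m - j)) = true := by
  induction j with
  | zero =>
    intro _ k s hs
    have h1 : s.length = m := hs.1
    show lab (c m) s = true ↔ _
    rw [Nat.sub_zero, List.take_of_length_le (by omega)]
  | succ j ih =>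
    intro hj k s hs
    have hlen : s.length = m := hs.1
    have hgood : Good (c m) s := hs.2
    have e1 : m + 1 + (m - (j + 1)) + 1 = m + 1 + (m - j) := by omega
    show (∃ z, (XN c).E (m + 1 + (m - (j + 1))) _ z ∧
      ¬ BT (XN c) j (m + 1 + (m - (j + 1)) + 1) z) ↔ _
    rw [e1]
    constructor
    · rintro ⟨⟨w, hw⟩, h1, h2⟩
      obtain ⟨s', rfl, h3⟩ := (er_iff (m - (j + 1)) w).1 h1
      rw [ih (by omega) k s' hw] at h2
      have hlen' : s'.length = m := hw.1
      have hgood' : Good (c m) s' := hw.2
      rw [take_eq h3]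
      have h4 : s' = s'.take (m - (j + 1)) ++ (s'[m - (j + 1)]'(by omega)) ::
          s'.drop (m - (j + 1) + 1) := by
        rw [List.getElem_cons_drop, List.take_append_drop]
      have h5 : s'.take (m - j) = s'.take (m - (j + 1)) ++ [s'[m - (j + 1)]'(by omega)] := by
        have : m - j = m - (j + 1) + 1 := by omega
        rw [this, List.take_succ_eq_append_getElem]
      rw [h5, lab_append] at h2
      have h6 : Good (lab (c m) (s'.take (m - (j + 1)))) ((s'[m - (j + 1)]'(by omega)) ::
          s'.drop (m - (j + 1) + 1)) := by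
        have h7 := hgood'
        rw [h4, good_append] at h7
        exact h7.2
      by_contra h8
      rw [Bool.not_eq_true] at h8
      exact h2 (h6.1 h8)
    · intro h1
      have hg : Good (c m) (s.take (m - (j + 1))) := by
        have := hgood
        rw [← List.take_append_drop (m - (j + 1)) s, good_append] at this
        exact this.1
      set s' := s.take (m - (j + 1)) ++ (false, 0) :: List.replicate j (true, 0) with hs'
      have hl1 : (s.take (m - (j + 1))).length = m - (j + 1) := by
        rw [List.length_take]; omega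
      have hval : Val c (Sum.inr (some (m, k, s'))) := by
        refine ⟨?_, ?_⟩
        · rw [hs', List.length_append, List.length_cons, List.length_replicate, hl1]
          omega
        · rw [hs', good_append]
          refine ⟨hg, ?_, good_rep j false⟩
          rw [h1]
          intro h
          exact absurd h (by decide)
      refine ⟨⟨Sum.inr (some (m, k, s')), hval⟩, ?_, ?_⟩
      · refine (er_iff (m - (j + 1)) _).2 ⟨s', rfl, fun u hu => ?_⟩
        rw [hs', List.getElem?_append_left (by omega), List.getElem?_take, if_pos hu]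
      · rw [ih (by omega) k s' hval]
        have h2 : s'.take (m - j) = s.take (m - (j + 1)) ++ [(false, 0)] := by
          rw [hs', List.take_append, List.take_of_length_le (by omega), hl1]
          have : m - j - (m - (j + 1)) = 1 := by omega
          rw [this]
          rfl
        rw [h2, lab_append]
        simp [lab]

theorem dist : S_DIST := by
  refine ⟨ch, fun c m => ?_⟩
  rw [ch_real]
  have key : ∀ (k : ℕ) (s : List (Bool × ℕ)) (hs : Val c (Sum.inr (some (m, k, s)))),
      BT (XN c) m (m + 1) ⟨Sum.inr (some (m, k, s)), hs⟩ ↔ c m = true := by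
    intro k s hs
    have h := bt_iff c m m le_rfl k s hs
    rw [Nat.sub_self] at h
    exact h
  constructor
  · rintro ⟨⟨w, hw⟩, h1, h2, h3⟩
    rcases w with d | z
    · exact h1.elim
    · rcases z with _ | ⟨i, k, s⟩
      · exact absurd (fun l _ => rfl) h2
      · change ∀ l < m, cd none l = cd (some (i, k, s)) l at h1
        change ¬ ∀ l < m + 1, cd none l = cd (some (i, k, s)) l at h2
        have hi : i = m := by
          rcases lt_trichotomy i m with h4 | h4 | h4
          · have := h1 i h4
            simp [cd] at this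
          · exact h4
          · exact absurd (fun l hl => by simp [cd, show l < i by omega]) h2
        subst hi
        exact (key k s hw).1 h3
  · intro h
    have hval : Val c (Sum.inr (some (m, 0, List.replicate m (true, 0)))) :=
      ⟨List.length_replicate, good_rep m (c m)⟩
    refine ⟨⟨Sum.inr (some (m, 0, List.replicate m (true, 0))), hval⟩, ?_, ?_,
      (key _ _ hval).2 h⟩
    · show ∀ l < m, cd none l = cd (some (m, 0, List.replicate m (true, 0))) l
      intro l hl
      simp [cd, hl]
    · show ¬ ∀ l < m + 1, cd none l = cd (some (m, 0, List.replicate m (true, 0))) l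
      intro h1
      have := h1 m (by omega)
      simp [cd] at this

end Run7.h68.BU
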